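import Pool.Agent.H88.MCR.Stmts3
import Pool.Agent.H44.MCR.TRF

/-!
Row TRR of board mcr: transfer of a diagram relative to a graph to generic real points
(adapted from row TRF by helper44).
-/

set_option autoImplicit false

namespace Pool.MCR

theorem trr_thm (hGEN : GEN_S) (hARM : ARM_S) : TRR_S := by
  classical
  intro L _ R n D hG
  obtain ⟨F, hFdef⟩ : ∃ F : Finset L, ∀ c, c ∈ F ↔ PtR R n D c := by
    have hfin : {c : L | PtR R n D c}.Finite := by
      have h1 : {c : L | ∃ x < n, c = D.pos x}.Finite := by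
        refine ((Finset.range n).image D.pos).finite_toSet.subset ?_
        rintro c ⟨x, hx, rfl⟩
        simp only [Finset.coe_image, Finset.coe_range]
        exact ⟨x, hx, rfl⟩
      have h2 : {c : L | ∃ x < n, ∃ y < n, R x y ∧ c ∈ D.E x y}.Finite := by
        refine ((Finset.range n ×ˢ Finset.range n).biUnion
          (fun q => (D.E q.1 q.2).toFinset)).finite_toSet.subset ?_
        rintro c ⟨x, hx, y, hy, -, hc⟩
        rw [Finset.mem_coe, Finset.mem_biUnion]
        exact ⟨(x, y), by simp [hx, hy], by simpa using hc⟩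
      exact (h1.union h2).subset fun c hc => hc
    exact ⟨hfin.toFinset, fun c => by rw [Set.Finite.mem_toFinset]; exact Iff.rfl⟩
  obtain ⟨g, hg, hgen⟩ := hGEN F.card
  obtain ⟨h, hh⟩ : ∃ h : L → ℝ, ∀ c, h c = g ((F.filter (fun a => a < c)).card) :=
    ⟨_, fun _ => rfl⟩
  have hF : ∀ a ∈ F, ∀ b ∈ F, a < b → h a < h b := by
    intro a ha b hb hab
    rw [hh, hh]
    apply hg
    apply Finset.card_lt_card
    rw [Finset.ssubset_iff_of_subset]
    · refine ⟨a, by simp [ha, hab], by simp⟩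
    · intro c hc
      rw [Finset.mem_filter] at hc ⊢
      exact ⟨hc.1, hc.2.trans hab⟩
  have hrk : ∀ a ∈ F, ∃ i < F.card, h a = g i := by
    intro a ha
    refine ⟨_, ?_, hh a⟩
    apply Finset.card_lt_card
    rw [Finset.ssubset_iff_of_subset (Finset.filter_subset _ _)]
    exact ⟨a, ha, by simp⟩
  have hpos : ∀ x < n, D.pos x ∈ F := fun x hx => (hFdef _).2 (Or.inl ⟨x, hx, rfl⟩)
  have hE : ∀ x < n, ∀ y < n, R x y → ∀ c ∈ D.E x y, c ∈ F := fun x hx y hy hxy c hc =>
    (hFdef _).2 (Or.inr ⟨x, hx, y, hy, hxy, hc⟩)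
  have hP : ∀ x < n, ∀ y < n, R x y → ∀ c ∈ D.P x y, c ∈ F := by
    intro x hx y hy hxy c hc
    unfold Diag.P at hc
    rw [List.mem_cons, List.mem_append, List.mem_singleton] at hc
    rcases hc with rfl | hc | rfl
    · exact hpos x hx
    · exact hE x hx y hy hxy c hc
    · exact hpos y hy
  have hA : ∀ x < n, ∀ y < n, R x y → ∀ A ∈ D.A x y, A.2.1 ∈ F ∧ A.2.2 ∈ F := by
    rintro x hx y hy hxy ⟨s, a, b⟩ hA
    have h1 := trf_arcs_mem _ _ _ _ _ hA
    exact ⟨hP x hx y hy hxy a h1.1, hP x hx y hy hxy b h1.2⟩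
  have hmapA : ∀ x y, (D.map h).A x y = (D.A x y).map (trfM h) := by
    intro x y
    have h1 : (D.map h).P x y = (D.P x y).map h := by
      unfold Diag.P Diag.map
      simp
    unfold Diag.A
    rw [h1]
    exact (hARM L ℝ h (D.P x y) (D.S x y)).1
  refine ⟨D.map h, ?_, ?_, ?_⟩
  · refine ⟨hG.irr, hG.sym, ?_, ?_, ?_, ?_, ?_, ?_, ?_, ?_, ?_⟩
    · intro x hx y hy hxy
      exact hG.pos_inj x hx y hy (trf_inj F h hF _ _ (hpos x hx) (hpos y hy) hxy)
    · intro x hx y hy z hz hxy hmem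
      obtain ⟨c, hc, hce⟩ := List.mem_map.1 hmem
      have h1 := trf_inj F h hF _ _ (hE x hx y hy hxy c hc) (hpos z hz) hce
      rw [h1] at hc
      exact hG.notin x hx y hy z hz hxy hc
    · intro x hx y hy hxy
      refine List.Nodup.map_on ?_ (hG.nodup x hx y hy hxy)
      intro a ha b hb hab
      exact trf_inj F h hF _ _ (hE x hx y hy hxy a ha) (hE x hx y hy hxy b hb) hab
    · intro x hx y hy z hz t ht hxy hzt c hc1 hc2
      obtain ⟨c1, hm1, rfl⟩ := List.mem_map.1 hc1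
      obtain ⟨c2, hm2, hce⟩ := List.mem_map.1 hc2
      have h1 := trf_inj F h hF _ _ (hE z hz t ht hzt c2 hm2) (hE x hx y hy hxy c1 hm1) hce
      rw [h1] at hm2
      exact hG.disj x hx y hy z hz t ht hxy hzt c1 hm1 hm2
    · intro x hx y hy hxy c hc
      obtain ⟨c1, hc1, rfl⟩ := List.mem_map.1 hc
      exact List.mem_map_of_mem (hG.symE x hx y hy hxy c1 hc1)
    · intro x hx y hy hxy s a b hab
      rw [hmapA] at hab ⊢
      obtain ⟨⟨s1, a1, b1⟩, h1, h2⟩ := List.mem_map.1 hab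
      unfold trfM at h2
      simp only [Prod.mk.injEq] at h2
      obtain ⟨rfl, rfl, rfl⟩ := h2
      exact List.mem_map_of_mem (hG.symA x hx y hy hxy s1 a1 b1 h1)
    · intro x hx y hy z hz hxy hxz hyz
      rw [hmapA, hmapA]
      exact trf_nc F h hF _ _ (hA x hx y hy hxy) (hA x hx z hz hxz)
        (hG.adj x hx y hy z hz hxy hxz hyz)
    · intro x hx y hy hxy
      rw [hmapA]
      exact trf_nc F h hF _ _ (hA x hx y hy hxy) (hA x hx y hy hxy) (hG.self x hx y hy hxy)
    · intro x hx y hy z hz t ht hxy hzt h1 h2 h3 h4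
      rw [hmapA, hmapA]
      exact trf_am F h hF _ _ (hA x hx y hy hxy) (hA z hz t ht hzt)
        (hG.two x hx y hy z hz t ht hxy hzt h1 h2 h3 h4)
  · have hPt : ∀ c, PtR R n (D.map h) c → ∃ i < F.card, c = g i := by
      rintro c (⟨x, hx, rfl⟩ | ⟨x, hx, y, hy, hxy, hc⟩)
      · exact hrk _ (hpos x hx)
      · obtain ⟨c1, hc1, rfl⟩ := List.mem_map.1 hc
        exact hrk _ (hE x hx y hy hxy c1 hc1)
    intro a b c d e f ha hb hc hd he hf hn
    exact hgen a b c d e f (hPt a ha) (hPt b hb) (hPt c hc) (hPt d hd) (hPt e he) (hPt f hf) hn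
  · intro x hx y hy z hz t ht hxy hzt hX
    rw [hmapA, hmapA]
    exact trf_ex F h hF _ _ (hA x hx y hy hxy) (hA z hz t ht hzt) hX

end Pool.MCR
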